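import Pool.Agent.W564.SC.Defs

/-!
Project SC (helper564), part C: products of an arbitrary diffeomorphism with the identity of the
circle.
-/

set_option autoImplicit false

open scoped Manifold ContDiff Topology
open Filter Set Metric

universe u

namespace Pool.Agent.W54.SC

open Pool.Agent.H718R2.G Pool.Agent.W564.SC

theorem exp_arg (ζ : ℂ) (hζ : ζ ≠ 0) :
    Complex.exp (2 * Real.pi * Complex.I * ((Complex.arg ζ / Real.pi : ℝ) : ℂ)) =
      ζ / (starRingEnd ℂ) ζ := by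
  have hpi : (Real.pi : ℂ) ≠ 0 := by exact_mod_cast Real.pi_ne_zero
  have h1 : 2 * Real.pi * Complex.I * ((Complex.arg ζ / Real.pi : ℝ) : ℂ) =
      (Complex.arg ζ : ℂ) * Complex.I + (Complex.arg ζ : ℂ) * Complex.I := by
    push_cast
    field_simp
    ring
  have h2 : (starRingEnd ℂ) (Complex.exp ((Complex.arg ζ : ℂ) * Complex.I)) =
      (Complex.exp ((Complex.arg ζ : ℂ) * Complex.I))⁻¹ := by
    rw [← Complex.exp_conj, ← Complex.exp_neg, map_mul, Complex.conj_ofReal, Complex.conj_I,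
      mul_neg]
  have h3 := Complex.norm_mul_exp_arg_mul_I ζ
  have h4 : ((‖ζ‖ : ℝ) : ℂ) ≠ 0 := by
    exact_mod_cast norm_ne_zero_iff.2 hζ
  obtain ⟨E, hE⟩ : ∃ E : ℂ, E = Complex.exp ((Complex.arg ζ : ℂ) * Complex.I) := ⟨_, rfl⟩
  have hE0 : E ≠ 0 := by rw [hE]; exact Complex.exp_ne_zero _
  rw [h1, Complex.exp_add]
  rw [← hE] at h2 h3 ⊢
  have h5 : (starRingEnd ℂ) ζ = ‖ζ‖ * E⁻¹ := by
    conv_lhs => rw [← h3]
    rw [map_mul, Complex.conj_ofReal, h2]
  rw [h5, eq_div_iff (mul_ne_zero h4 (inv_ne_zero hE0))]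
  calc E * E * (‖ζ‖ * E⁻¹) = ‖ζ‖ * E * (E * E⁻¹) := by ring
    _ = ‖ζ‖ * E := by rw [mul_inv_cancel₀ hE0, mul_one]
    _ = ζ := h3

theorem exp_arg2 (w : ℂ) (hw : ‖w‖ = 1) :
    Complex.exp (2 * Real.pi * Complex.I * ((Complex.arg w / (2 * Real.pi) : ℝ) : ℂ)) = w := by
  have hpi : (Real.pi : ℂ) ≠ 0 := by exact_mod_cast Real.pi_ne_zero
  have h1 : 2 * Real.pi * Complex.I * ((Complex.arg w / (2 * Real.pi) : ℝ) : ℂ) =
      (Complex.arg w : ℂ) * Complex.I := by
    push_cast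
    field_simp
  have h3 := Complex.norm_mul_exp_arg_mul_I w
  rw [hw, Complex.ofReal_one, one_mul] at h3
  rw [h1, h3]

theorem conj_mul_self (w : ℂ) (hw : ‖w‖ = 1) : w * (starRingEnd ℂ) w = 1 := by
  rw [Complex.mul_conj, Complex.normSq_eq_norm_sq, hw]
  norm_num

section top

variable {N : Type u} [TopologicalSpace N] [T2Space N] (F : N → N) (hF : Continuous F) (z : N)

include hF in
theorem separate (hz : ∀ b : ℕ, 1 ≤ b → F^[b] z ≠ z) (M0 : ℕ) :
    ∃ W ∈ 𝓝 z, ∀ b : ℕ, 1 ≤ b → b < M0 → ∀ y ∈ W, F^[b] y ∉ W := by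
  induction M0 with
  | zero => exact ⟨univ, univ_mem, fun b _ hb => by omega⟩
  | succ M0 ih =>
    obtain ⟨W, hW, hW2⟩ := ih
    rcases Nat.lt_or_ge M0 1 with h0 | h0
    · exact ⟨W, hW, fun b hb1 hb2 => by omega⟩
    · obtain ⟨A, B, hA, hB, hzA, hzB, hAB⟩ := t2_separation (hz M0 h0).symm
      refine ⟨W ∩ (A ∩ (F^[M0]) ⁻¹' B), inter_mem hW (inter_mem (hA.mem_nhds hzA)
        ((hF.iterate M0).continuousAt.preimage_mem_nhds (hB.mem_nhds hzB))), ?_⟩
      intro b hb1 hb2 y hy hy2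
      rcases Nat.lt_or_ge b M0 with h1 | h1
      · exact hW2 b hb1 h1 y hy.1 hy2.1
      · have hb : b = M0 := by omega
        subst hb
        exact Set.disjoint_left.1 hAB hy2.2.1 hy.2.2

end top

theorem cont_single : Continuous (fun x : ℝ => (EuclideanSpace.single (0 : Fin 1) x : V 1)) := by
  refine Isometry.continuous ?_
  refine Isometry.of_dist_eq (fun x y => ?_)
  exact PiLp.dist_single_same _ _ _ _ _

theorem returns (N : Type u) [TopologicalSpace N] [T2Space N] (F : N → N) (hF : Continuous F)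
    (R : V 1 → N → N) (hR : Continuous (fun q : V 1 × N => R q.1 q.2)) (hR0 : ∀ y, R 0 y = y)
    (a : N → ℂ) (ha : Continuous a) (ha1 : ∀ y, ‖a y‖ = 1)
    (haR : ∀ t y, a (R t y) = Complex.exp (2 * Real.pi * Complex.I * (t 0 : ℝ)) * a y)
    (hFR : ∀ t y, F (R t y) = R t (F y)) (z : N) (hz : ∀ b : ℕ, 1 ≤ b → F^[b] z ≠ z)
    (hNW : NonWand F z) (W : Set N) (hW : W ∈ 𝓝 z) (M0 : ℕ) :
    ∃ m : ℕ, M0 ≤ m ∧ 1 ≤ m ∧ ∃ y ∈ W, F^[m] y ∈ W ∧ a y = a z := by
  have hFRi : ∀ (i : ℕ) t y, F^[i] (R t y) = R t (F^[i] y) := by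
    intro i
    induction i with
    | zero => intro t y; rfl
    | succ i ih =>
      intro t y
      rw [Function.iterate_succ_apply', ih, hFR, Function.iterate_succ_apply']
  obtain ⟨τ, hτ⟩ : ∃ τ : N → V 1, ∀ y, τ y = EuclideanSpace.single (0 : Fin 1)
    (Complex.arg (a z * (starRingEnd ℂ) (a y)) / (2 * Real.pi)) := ⟨_, fun y => rfl⟩
  have hτz : τ z = 0 := by
    rw [hτ, conj_mul_self _ (ha1 z), Complex.arg_one, zero_div]
    ext j
    simp
  have hτc : ContinuousAt τ z := by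
    have e : τ = fun y => EuclideanSpace.single (0 : Fin 1)
      (Complex.arg (a z * (starRingEnd ℂ) (a y)) / (2 * Real.pi)) := funext hτ
    rw [e]
    refine cont_single.continuousAt.comp ?_
    refine ContinuousAt.div_const ?_ _
    have h1 : ContinuousAt Complex.arg (a z * (starRingEnd ℂ) (a z)) := by
      rw [conj_mul_self _ (ha1 z)]
      exact Complex.continuousAt_arg Complex.one_mem_slitPlane
    have h2 : ContinuousAt (fun y => a z * (starRingEnd ℂ) (a y)) z :=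
      (continuous_const.mul (Complex.continuous_conj.comp ha)).continuousAt
    exact ContinuousAt.comp (f := fun y => a z * (starRingEnd ℂ) (a y)) (g := Complex.arg) h1 h2
  have hΦ : Tendsto (fun q : N × N => R (τ q.1) q.2) (𝓝 (z, z)) (𝓝 z) := by
    have h1 : ContinuousAt (fun q : N × N => (τ q.1, q.2)) (z, z) :=
      (ContinuousAt.comp (f := fun q : N × N => q.1) (g := τ) hτc continuousAt_fst).prodMk
        continuousAt_snd
    have h2 : ContinuousAt (fun q : V 1 × N => R q.1 q.2) (τ z, z) := hR.continuousAt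
    have h3 : ContinuousAt (fun q : N × N => R (τ q.1) q.2) (z, z) :=
      ContinuousAt.comp (f := fun q : N × N => (τ q.1, q.2))
        (g := fun q : V 1 × N => R q.1 q.2) h2 h1
    have h4 : R (τ z) z = z := by rw [hτz, hR0]
    have h5 := h3.tendsto
    simp only [h4] at h5
    exact h5
  have hev : ∀ᶠ q : N × N in 𝓝 z ×ˢ 𝓝 z, R (τ q.1) q.2 ∈ W := by
    rw [← nhds_prod_eq]
    exact hΦ hW
  obtain ⟨W1, hW1, hW1'⟩ := (Filter.eventually_prod_self_iff (r := fun y y' : N => R (τ y) y' ∈ W)).1 hev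
  obtain ⟨W2, hW2, hW2'⟩ := separate F hF z hz M0
  obtain ⟨m, hm1, y, hy, hmy⟩ := hNW (W1 ∩ W2) (inter_mem hW1 hW2)
  have hmM : M0 ≤ m := by
    by_contra hcon
    exact hW2' m hm1 (by omega) y hy.2 hmy.2
  refine ⟨m, hmM, hm1, R (τ y) y, hW1' y hy.1 y hy.1, ?_, ?_⟩
  · rw [hFRi]
    exact hW1' y hy.1 _ hmy.1
  · rw [haR]
    have h1 : ((τ y) 0 : ℝ) = Complex.arg (a z * (starRingEnd ℂ) (a y)) / (2 * Real.pi) := by
      rw [hτ]
      simp
    rw [h1, exp_arg2 _ (by rw [norm_mul, RCLike.norm_conj, ha1, ha1, mul_one]), mul_assoc,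
      mul_comm ((starRingEnd ℂ) (a y)), conj_mul_self _ (ha1 y), mul_one]

theorem c (h1 : S_CF.{u}) (h2 : S_MOEB) (h3 : S_CL.{u}) (h4 : S_GC.{u}) : S_C.{u} := by
  intro n N _ _ _ _ _ r hr R hR a ha ha1 haR F hFR haF z hNW U hU hFU
  by_cases hper : ∃ b : ℕ, 1 ≤ b ∧ F^[b] z = z
  · exact ⟨F, hFU, hper⟩
  have hz : ∀ b : ℕ, 1 ≤ b → F^[b] z ≠ z := fun b hb h => hper ⟨b, hb, h⟩
  obtain ⟨H, κ1, hκ1, hH0, hfam, hH⟩ := h1 n N r R hR a ha ha1 haR F hFR haF
  obtain ⟨χ, hχ⟩ := h4 n N z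
  obtain ⟨k, hk, κ2, hκ2, hCL⟩ := h3 n N r hr (ℂ × ℂ) H hfam χ z hχ U hU (by rw [hH0]; exact hFU)
  obtain ⟨κ, hκ0, hκa, hκb, hκc⟩ : ∃ κ : ℝ, 0 < κ ∧ κ ≤ κ1 ∧ κ ≤ κ2 ∧ κ ≤ 1 / 2 :=
    ⟨min (min κ1 κ2) (1 / 2), lt_min (lt_min hκ1 hκ2) (by norm_num),
      (min_le_left _ _).trans (min_le_left _ _), (min_le_left _ _).trans (min_le_right _ _),
      min_le_right _ _⟩
  obtain ⟨δ, M, hδ, hMO⟩ := h2 κ hκ0
  have hac : Continuous a := ha.continuous
  have hFc : Continuous F := F.continuous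
  -- the radius
  obtain ⟨ρ, hρ0, hρκ, hρa⟩ : ∃ ρ : ℝ, 0 < ρ ∧ ρ < κ2 ∧
      ∀ y ∈ χ.source, ‖χ y‖ < 3 * ρ → ‖a y - a z‖ < δ := by
    have hc : ContinuousAt (fun x => a (χ.symm x)) (0 : V n) := by
      have h5 : ContinuousAt χ.symm (0 : V n) := by
        apply χ.continuousAt_symm
        exact hχ.ball (mem_closedBall_self (by norm_num))
      exact ContinuousAt.comp (g := a) (f := χ.symm) hac.continuousAt h5
    have hz0 : χ.symm (0 : V n) = z := by
      rw [← hχ.zero]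
      exact χ.left_inv hχ.src
    rw [Metric.continuousAt_iff] at hc
    obtain ⟨ε, hε, hε2⟩ := hc δ hδ
    refine ⟨min (ε / 3) (κ2 / 2), lt_min (by linarith) (by linarith),
      (min_le_right _ _).trans_lt (by linarith), ?_⟩
    intro y hy hy2
    have h5 : ‖χ y‖ < ε := by
      have : min (ε / 3) (κ2 / 2) ≤ ε / 3 := min_le_left _ _
      linarith
    have h6 := hε2 (x := χ y) (by rw [dist_zero_right]; exact h5)
    rw [χ.left_inv hy, hz0, dist_eq_norm] at h6
    exact h6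
  obtain ⟨ε, hε0, hε1, hε2, hε3⟩ : ∃ ε : ℝ, 0 < ε ∧ ε ≤ ρ ∧ ε ≤ κ2 ∧ 2 * ε ≤ κ2 * ρ ^ k := by
    have h5 : 0 < κ2 * ρ ^ k / 2 := by positivity
    refine ⟨min (min ρ κ2) (κ2 * ρ ^ k / 2), lt_min (lt_min hρ0 hκ2) h5,
      (min_le_left _ _).trans (min_le_left _ _), (min_le_left _ _).trans (min_le_right _ _), ?_⟩
    have := min_le_right (min ρ κ2) (κ2 * ρ ^ k / 2)
    linarith
  have hW : {y : N | y ∈ χ.source ∧ ‖χ y‖ < ε} ∈ 𝓝 z := by
    have h5 : χ.source ∈ 𝓝 z := χ.open_source.mem_nhds hχ.src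
    have h6 : ContinuousAt (fun y => ‖χ y‖) z := (χ.continuousAt hχ.src).norm
    have h7 : ∀ᶠ y in 𝓝 z, ‖χ y‖ < ε := by
      have h8 : ‖χ z‖ < ε := by rw [hχ.zero, norm_zero]; exact hε0
      exact h6.eventually_lt_const h8
    filter_upwards [h5, h7] with y hy1 hy2
    exact ⟨hy1, hy2⟩
  obtain ⟨m, hmM, hm1, y, ⟨hyχ, hyε⟩, ⟨hmyχ, hmyε⟩, hay⟩ := returns N F hFc R hR.smooth.continuous
    hR.zero a hac ha1 haR hFR z hz hNW _ hW M
  obtain ⟨p, q, g, hpq, hg, hgm, hgi⟩ := hMO m hmM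
  have hp : ‖p‖ < 1 / 2 := (norm_fst_le (p, q)).trans_lt (hpq.trans_le hκc)
  have hq : ‖q‖ < 1 / 2 := (norm_snd_le (p, q)).trans_lt (hpq.trans_le hκc)
  have hs : ‖((p, q * a z) : ℂ × ℂ)‖ < κ := by
    rw [Prod.norm_def] at hpq ⊢
    simp only at hpq ⊢
    rw [norm_mul, ha1, mul_one]
    exact hpq
  have hFi : ∀ i : ℕ, a (F^[i] y) = a y := by
    intro i
    induction i with
    | zero => rfl
    | succ i ih => rw [Function.iterate_succ_apply', haF, ih]
  -- the orbit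
  have horb : ∀ i : ℕ, (∃ T : V 1, (H (p, q * a z))^[i] y = R T (F^[i] y)) ∧
      a ((H (p, q * a z))^[i] y) = a z * g^[i] 1 := by
    intro i
    induction i with
    | zero =>
      refine ⟨⟨0, ?_⟩, ?_⟩
      · show y = R 0 y
        rw [hR.zero]
      · show a y = a z * 1
        rw [hay, mul_one]
    | succ i ih =>
      obtain ⟨⟨T, hT⟩, hai⟩ := ih
      obtain ⟨y', hy'⟩ : ∃ y', y' = (H (p, q * a z))^[i] y := ⟨_, rfl⟩
      obtain ⟨w, hw⟩ : ∃ w, w = g^[i] 1 := ⟨_, rfl⟩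
      rw [Function.iterate_succ_apply', Function.iterate_succ_apply', Function.iterate_succ_apply']
      rw [← hy'] at hT hai ⊢
      rw [← hw] at hai ⊢
      have hwn : ‖w‖ = 1 := by
        have := ha1 y'
        rw [hai, norm_mul, ha1, one_mul] at this
        exact this
      have hζ : 1 + p + q * a z * (starRingEnd ℂ) (a y') = 1 + p + q * (starRingEnd ℂ) w := by
        rw [hai, map_mul]
        have h5 := conj_mul_self (a z) (ha1 z)
        linear_combination q * (starRingEnd ℂ) w * h5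
      have hζ0 : 1 + p + q * (starRingEnd ℂ) w ≠ 0 := by
        intro h0
        have h5 : (1 : ℂ) = -(p + q * (starRingEnd ℂ) w) := by linear_combination h0
        have h6 : ‖(1 : ℂ)‖ ≤ ‖p‖ + ‖q‖ := by
          rw [h5, norm_neg]
          refine (norm_add_le _ _).trans ?_
          rw [norm_mul, RCLike.norm_conj, hwn, mul_one]
        rw [norm_one] at h6
        linarith
      have hHy := hH (p, q * a z) (hs.trans_le hκa) y'
      simp only at hHy
      rw [hζ] at hHy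
      refine ⟨⟨EuclideanSpace.single 0 (Complex.arg (1 + p + q * (starRingEnd ℂ) w) / Real.pi) + T,
        ?_⟩, ?_⟩
      · rw [hHy, hT, hFR, ← hR.add]
      · rw [hHy, haR, haF, hai, hg]
        have h5 : (((EuclideanSpace.single (0 : Fin 1)
            (Complex.arg (1 + p + q * (starRingEnd ℂ) w) / Real.pi) : V 1) 0 : ℝ)) =
            Complex.arg (1 + p + q * (starRingEnd ℂ) w) / Real.pi := by
          simp
        rw [h5, exp_arg _ hζ0]
        ring
  -- the orbit comes back to the orbit of `F`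
  have hHm : (H (p, q * a z))^[m] y = F^[m] y := by
    obtain ⟨⟨T, hT⟩, hai⟩ := horb m
    rw [hT, hgm, mul_one, haR, hFi, hay] at hai
    rw [hT]
    apply (hR.free T _).2
    intro j
    have hj : j = 0 := Subsingleton.elim _ _
    subst hj
    have haz : a z ≠ 0 := by
      intro h0
      have := ha1 z
      rw [h0, norm_zero] at this
      exact zero_ne_one this
    have h5 : Complex.exp (2 * Real.pi * Complex.I * (T 0 : ℝ)) = 1 := by
      have h6 : Complex.exp (2 * Real.pi * Complex.I * (T 0 : ℝ)) * a z = 1 * a z := by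
        rw [one_mul]
        exact hai
      exact mul_right_cancel₀ haz h6
    obtain ⟨l, hl⟩ := Complex.exp_eq_one_iff.1 h5
    refine ⟨l, ?_⟩
    have h7 : (2 * Real.pi * Complex.I) ≠ 0 := Complex.two_pi_I_ne_zero
    have h8 : ((T 0 : ℝ) : ℂ) = (l : ℂ) := by
      apply mul_left_cancel₀ h7
      rw [hl]
      ring
    exact_mod_cast h8
  refine hCL (p, q * a z) y ρ m (hs.trans_le hκb) hyχ (hyε.trans_le hε2) hρ0 hρκ hm1 ?_ ?_ ?_
  · rw [hHm]
    exact hmyχ
  · rw [hHm]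
    calc ‖χ (F^[m] y) - χ y‖ ≤ ‖χ (F^[m] y)‖ + ‖χ y‖ := norm_sub_le _ _
      _ < ε + ε := add_lt_add hmyε hyε
      _ = 2 * ε := by ring
      _ ≤ κ2 * ρ ^ k := hε3
  · intro i hi0 him hiχ
    by_contra hcon
    push Not at hcon
    have h5 : ‖χ ((H (p, q * a z))^[i] y)‖ < 3 * ρ := by
      have h6 : χ ((H (p, q * a z))^[i] y) = (χ ((H (p, q * a z))^[i] y) - χ y) + χ y := by
        rw [sub_add_cancel]
      rw [h6]
      have h7 := norm_add_le (χ ((H (p, q * a z))^[i] y) - χ y) (χ y)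
      linarith
    have h6 := hρa _ hiχ h5
    rw [(horb i).2] at h6
    have h7 : a z * g^[i] 1 - a z = a z * (g^[i] 1 - 1) := by ring
    rw [h7, norm_mul, ha1, one_mul] at h6
    have h8 := hgi i hi0 him
    linarith

end Pool.Agent.W54.SC
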